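import Pool.Agent.E8helper55.FZ.Up
import Pool.Agent.E8helper36.FZ.Lo
import Pool.Agent.E8helper64.FZ.Bd
import Pool.Agent.E8helper44.FZ.Num

/-!
# Percolation with constant freezing is not stochastically monotone in the freezing rate

The graph is a chain of `2 T + 1` rows of `m + 1` vertices; each row is a clique together with the
first vertex (the hub) of the next row, and one pendant vertex hangs at each end of the chain.  The
event is that at least one of the two pendant edges is open.

If the whole chain merges before anything else happens, both pendant edges are closed as soon as the
single cluster of the chain freezes first; this gives the complementary event a probability of order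
`α` for `α` of order `1 / T`.  For `β` of order `1 / √T` some hub freezes alone with overwhelming
probability, which separates the two ends, and then the complementary event needs two independent
freezings and has a probability of order `β ^ 2`, which is smaller if the constants are chosen
suitably.
-/

set_option autoImplicit false

namespace Pool.Agent.Results.MP_959d67_pr.NotMonotoneH11

open Finset Pool.Agent.E8helper11.FZ

/-- **Percolation with constant freezing (PCF) is not stochastically decreasing in the freezing
rate.**  There are a finite graph `G`, rates `0 < α < β` and an increasing event `A` such that the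
law of the final set of open edges gives `A` a larger probability at the rate `β` than at the
rate `α`. -/
theorem result :
    ∃ (V : Type) (_ : Fintype V) (_ : DecidableEq V) (G : SimpleGraph V) (α β : ℝ)
      (A : Set (Finset (Sym2 V))), 0 < α ∧ α < β ∧ Increasing A ∧ mu G α A < mu G β A := by
  obtain ⟨T, m, α, β, hT, hm, hα, hαβ, h⟩ := Pool.Agent.E8helper44.FZ.num
  have hβ : 0 < β := hα.trans hαβ
  refine ⟨W T m, inferInstance, inferInstance, Gr T m, α, β, (Dn T m)ᶜ, hα, hαβ, ?_, ?_⟩
  · intro ω ω' hω hsub hω'
    exact hω ⟨fun h1 => hω'.1 (hsub h1), fun h2 => hω'.2 (hsub h2)⟩
  · rw [mu_compl _ hα, mu_compl _ hβ]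
    have h1 := Pool.Agent.E8helper55.FZ.up T m hT β hβ
    have h2 := Pool.Agent.E8helper36.FZ.lo Pool.Agent.E8helper64.FZ.bd T m hT hm α hα
    linarith

end Pool.Agent.Results.MP_959d67_pr.NotMonotoneH11
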